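import Pool.Agent.CConj.Decide

/-!
# The c-conjugacy problem for finite monadic confluent rewriting systems is decidable

This answers Q1 of the problem in the affirmative: for every finite monadic confluent rewriting
system `R` over a finite alphabet, the `c`-conjugacy problem of the monoid presented by `R` is
decidable.
-/

namespace Pool.Agent.Results.MP_eab232_al.CConjDecidable

open Pool.Agent.ConjMonadic Pool.Agent.CConj

/-- For every finite monadic confluent rewriting system `R` over the alphabet `Fin k` there is an
algorithm which decides, given two words `u` and `v`, whether `[u]` and `[v]` are `c`-conjugate in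
the monoid presented by `R`. -/
theorem result (k : ℕ) (R : Set (List (Fin k) × List (Fin k))) (hfin : R.Finite)
    (hmon : Monadic R) (hconf : Confluent R) :
    ComputablePred fun p : List (Fin k) × List (Fin k) => CConj (cls R p.1) (cls R p.2) := by
  obtain ⟨h₁, h₂⟩ := primrecPred_cconj hfin hmon hconf
  exact ⟨h₁, h₂.to_comp⟩

end Pool.Agent.Results.MP_eab232_al.CConjDecidable
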