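import Pool.Agent.ConjMonadic.Undec

/-!
# The p-conjugacy problem for finite monadic confluent rewriting systems is undecidable

This settles Q2 of the problem in the negative: there is a finite monadic confluent rewriting
system `R` over a finite alphabet such that the `p`-conjugacy problem of the monoid presented
by `R` is undecidable.
-/

namespace Pool.Agent.Results.MP_eab232_al.PConjUndecidable

open Pool.Agent.ConjMonadic

section finiteness

variable {X Y KP' KG' T : Type*}

theorem finite_letter [Finite X] [Finite Y] [Finite KP'] [Finite KG'] :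
    Finite (Letter X Y KP' KG') := by
  refine Finite.of_injective (β := Option ((KP' ⊕ KG') ⊕ (X ⊕ Y))) (fun l => match l with
    | .zero => none
    | .P k => some (.inl (.inl k))
    | .G l => some (.inl (.inr l))
    | .x a => some (.inr (.inl a))
    | .y b => some (.inr (.inr b))) ?_
  rintro (_ | _ | _ | _ | _) (_ | _ | _ | _ | _) h <;> simp_all

theorem finite_bw [Finite Y] (N : ℕ) : Finite (BW Y N) :=
  (List.finite_length_le Y N).to_subtype

theorem finite_tapeX [Finite T] : Finite (TapeX T) := by
  refine Finite.of_injective (β := Option (Option T)) (fun l => match l with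
    | .start => none
    | .stop => some none
    | .tok t => some (some t)) ?_
  rintro (_ | _ | _) (_ | _ | _) h <;> simp_all

theorem finite_KP [Finite Y] (N : ℕ) : Finite (KP Y N) := by
  have := finite_bw (Y := Y) N
  refine Finite.of_injective (β := Fin 5 ⊕ BW Y N) (fun l => match l with
    | .init => .inl 0
    | .h0 => .inl 1
    | .h1 => .inl 2
    | .h2 => .inl 3
    | .fin => .inl 4
    | .rd w => .inr w) ?_
  rintro (_ | _ | _ | _ | _ | _) (_ | _ | _ | _ | _ | _) h <;> simp_all

theorem finite_KG [Finite Y] (N : ℕ) : Finite (KG Y N) := by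
  have := finite_bw (Y := Y) N
  refine Finite.of_injective (β := Fin 2 ⊕ BW Y N) (fun l => match l with
    | .init => .inl 0
    | .fin => .inl 1
    | .rd w => .inr w) ?_
  rintro (_ | _ | _) (_ | _ | _) h <;> simp_all

theorem finite_YL {Γ Q : Type*} [Finite Γ] [Finite Q] : Finite (YL Γ Q) := by
  refine Finite.of_injective (β := Option (Option (Γ ⊕ (Q × Γ)))) (fun l => match l with
    | .L => none
    | .R => some none
    | .c a => some (some (.inl a))
    | .s q a => some (some (.inr (q, a)))) ?_
  rintro (_ | _ | _ | _) (_ | _ | _ | _) h <;> simp_all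

end finiteness

/-- There are a finite alphabet `Fin k` and a finite, monadic and confluent rewriting system `R`
over it such that no algorithm decides, given two words `u` and `v`, whether `[u]` and `[v]` are
`p`-conjugate in the monoid presented by `R`. -/
theorem result : ∃ (k : ℕ) (R : Finset (List (Fin k) × List (Fin k))),
    Monadic (R : Set (List (Fin k) × List (Fin k))) ∧
    Confluent (R : Set (List (Fin k) × List (Fin k))) ∧
    ¬ ComputablePred fun p : List (Fin k) × List (Fin k) =>
      PConj (cls (R : Set (List (Fin k) × List (Fin k))) p.1)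
        (cls (R : Set (List (Fin k) × List (Fin k))) p.2) := by
  classical
  obtain ⟨Γ, Q, _, _, _, δ, q₀, a₀, g, hund⟩ := exists_machine
  have : Finite (YL Γ Q) := finite_YL
  have : Finite (BW (YL Γ Q) 3) := finite_bw 3
  have : Finite (BW (YL Γ Q) (tmTok δ).N) := finite_bw _
  have : Finite (TapeX {p : BW (YL Γ Q) 3 × BW (YL Γ Q) 3 // TokRel δ p.1.1 p.2.1}) :=
    finite_tapeX
  have : Finite (KP (YL Γ Q) (tmTok δ).N) := finite_KP _
  have : Finite (KG (YL Γ Q) (tmTok δ).N) := finite_KG _
  have hfin := finite_letter
    (X := TapeX {p : BW (YL Γ Q) 3 × BW (YL Γ Q) 3 // TokRel δ p.1.1 p.2.1})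
    (Y := YL Γ Q) (KP' := KP (YL Γ Q) (tmTok δ).N) (KG' := KG (YL Γ Q) (tmTok δ).N)
  obtain ⟨k, ⟨e⟩⟩ := Finite.exists_equiv_fin
    (Letter (TapeX {p : BW (YL Γ Q) 3 × BW (YL Γ Q) 3 // TokRel δ p.1.1 p.2.1}) (YL Γ Q)
      (KP (YL Γ Q) (tmTok δ).N) (KG (YL Γ Q) (tmTok δ).N))
  have hRfin : (mapSys e (tmTok δ).dev.sys).Finite :=
    mapSys_finite e (pairSys_finite (tmTok δ).dev.mul)
  refine ⟨k, hRfin.toFinset, ?_, ?_, ?_⟩
  · rw [Set.Finite.coe_toFinset]
    exact mapSys_monadic e (pairSys_monadic _)
  · rw [Set.Finite.coe_toFinset]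
    exact mapSys_confluent e (tmTok δ).dev.sys_confluent
  · rw [Set.Finite.coe_toFinset]
    intro hcomp
    apply hund
    obtain ⟨hdec, hcomp⟩ := hcomp
    let pre : List (Fin k) := [e (.P .init), e (.y .L), e (.y (.s q₀ a₀))]
    let post : List (Fin k) := [e (.y .R), e (.G .fin)]
    let w₁ : List (Fin k) := [e (.P .fin), e (.G .init)]
    let f : ℕ → List (Fin k) × List (Fin k) := fun n =>
      (w₁, pre ++ (n.bits.reverse.map fun b => e (.y (.c (g b)))) ++ post)
    have hf : Primrec f := by
      refine Primrec.pair (Primrec.const _) ?_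
      refine Primrec.list_append.comp (Primrec.list_append.comp (Primrec.const _) ?_)
        (Primrec.const _)
      refine Primrec.list_map (Primrec.list_reverse.comp primrec_bits) ?_
      exact (Primrec.dom_finite fun b : Bool => e (.y (.c (g b)))).comp Primrec.snd
    have hiff : ∀ n : ℕ, PConj (cls (mapSys e (tmTok δ).dev.sys) (f n).1)
        (cls (mapSys e (tmTok δ).dev.sys) (f n).2) ↔
        Halts δ ⟨[], q₀, a₀, n.bits.reverse.map g⟩ := by
      intro n
      rw [← tm_pconj_iff, ← mapSys_pconj e]
      have h1 : (f n).1 = [Letter.P KP.fin, Letter.G KG.init].map e := rfl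
      have h2 : (f n).2 = ((tmTok δ).testWord
          (LCfg.word ⟨[], q₀, a₀, n.bits.reverse.map g⟩)).map e := by
        simp [f, pre, post, TokData.testWord, LCfg.word, Function.comp_def]
      rw [h1, h2]
    refine ComputablePred.of_eq ⟨fun n => hdec (f n), hcomp.comp hf.to_comp⟩ hiff

end Pool.Agent.Results.MP_eab232_al.PConjUndecidable
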